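import Pool.Agent.Helper79.GS.St1

set_option autoImplicit false

namespace Pool.Agent.Helper53.GS

open Pool.Agent.Helper79.GS Pool.Agent.Helper19.SK

private theorem mat_zero {P : Type} (E : P → P → Prop) : Mat E 0 :=
  ⟨∅, by simp, by simp, by simp, by simp⟩

private theorem mat_mono {P : Type} {E : P → P → Prop} {m m' : ℕ} (h : Mat E m) (hm : m' ≤ m) :
    Mat E m' := by
  obtain ⟨M, hc, hE, h1, h2⟩ := h
  obtain ⟨N, hN, hNc⟩ := Finset.exists_subset_card_eq (s := M) (n := m') (by omega)
  exact ⟨N, hNc, fun e he => hE e (hN he), h1.mono (by exact_mod_cast hN),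
    h2.mono (by exact_mod_cast hN)⟩

private theorem mat_le {P : Type} [Finite P] {E : P → P → Prop} {m : ℕ} (h : Mat E m) :
    m ≤ Nat.card P := by
  obtain ⟨M, hc, hE, h1, h2⟩ := h
  rw [← hc, ← Set.ncard_coe_finset, ← h1.ncard_image]
  exact Set.ncard_le_card _

private theorem mat_rel {P : Type} {E F : P → P → Prop} (hEF : ∀ y x, E y x → F y x) {m : ℕ}
    (h : Mat E m) : Mat F m := by
  obtain ⟨M, hc, hE, h1, h2⟩ := h
  exact ⟨M, hc, fun e he => hEF _ _ (hE e he), h1, h2⟩

private theorem mat_del {P : Type} {E : P → P → Prop} {m : ℕ} (u : P) (h : Mat E (m + 1)) :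
    Mat (del E u) m := by
  classical
  obtain ⟨M, hc, hE, h1, h2⟩ := h
  have hsub : M.filter (fun e => e.1 ≠ u) ⊆ M := Finset.filter_subset _ _
  have hcard : m ≤ (M.filter (fun e => e.1 ≠ u)).card := by
    have hs := Finset.card_filter_add_card_filter_not (s := M) (fun e => e.1 ≠ u)
    have h3 : (M.filter (fun e => ¬ e.1 ≠ u)).card ≤ 1 := by
      rw [Finset.card_le_one]
      intro a ha b hb
      rw [Finset.mem_filter] at ha hb
      have ha2 : a.1 = u := by simpa using ha.2
      have hb2 : b.1 = u := by simpa using hb.2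
      exact h1 (by exact_mod_cast ha.1) (by exact_mod_cast hb.1) (ha2.trans hb2.symm)
    omega
  have hM : Mat (del E u) (M.filter (fun e => e.1 ≠ u)).card :=
    ⟨M.filter (fun e => e.1 ≠ u), rfl, fun e he => by
      rw [Finset.mem_filter] at he
      exact ⟨he.2, hE e he.1⟩, h1.mono (by exact_mod_cast hsub), h2.mono (by exact_mod_cast hsub)⟩
  exact mat_mono hM hcard

private theorem exists_nu {P : Type} [Finite P] (E : P → P → Prop) :
    ∃ a : ℕ, ∀ m, Mat E m ↔ m ≤ a := by
  classical
  refine ⟨Nat.findGreatest (fun m => Mat E m) (Nat.card P), fun m => ⟨fun h => ?_, fun h => ?_⟩⟩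
  · exact Nat.le_findGreatest (mat_le h) h
  · have h1 : Mat E (Nat.findGreatest (fun m => Mat E m) (Nat.card P)) :=
      Nat.findGreatest_spec (P := fun m => Mat E m) (Nat.zero_le _) (mat_zero E)
    exact mat_mono h1 h

theorem hCOL (hAUG : StAUG) : StCOL := by
  classical
  intro P _ E v r hvr hv
  obtain ⟨a, ha⟩ := exists_nu E
  obtain ⟨b, hb⟩ := exists_nu (del E v)
  obtain ⟨c, hc⟩ := exists_nu (del E r)
  obtain ⟨d, hd⟩ := exists_nu (del (del E v) r)
  have hab : b < a := by
    obtain ⟨m, h1, h2⟩ := hv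
    rw [ha] at h1
    rw [hb] at h2
    omega
  have hab' : a ≤ b + 1 := by
    by_contra hcon
    have h1 : Mat E (b + 1 + 1) := (ha _).2 (by omega)
    have h2 := (hb _).1 (mat_del v h1)
    omega
  constructor
  · -- Ess (del E v) r → Ess E r
    rintro ⟨m, h1, h2⟩
    rw [hb] at h1
    rw [hd] at h2
    by_contra hcon
    have hca : a ≤ c := by
      by_contra hlt
      exact hcon ⟨a, (ha a).2 le_rfl, fun h => hlt ((hc a).1 h)⟩
    have h3 : Mat (del E r) (b + 1) := (hc _).2 (by omega)
    have h4 : Mat (del (del E r) v) b := mat_del v h3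
    have h5 : Mat (del (del E v) r) b := mat_rel (fun y x h => ⟨h.2.1, h.1, h.2.2⟩) h4
    have := (hd b).1 h5
    omega
  · rintro ⟨m, h1, h2⟩
    rw [ha] at h1
    rw [hc] at h2
    refine ⟨b, (hb b).2 le_rfl, fun h => ?_⟩
    obtain ⟨M', hc', hE', h1', h2'⟩ := h
    obtain ⟨M, hcM, hE, hM1, hM2⟩ := (ha a).2 le_rfl
    obtain ⟨y, hy, M'', hE'', h1'', h2'', him⟩ := hAUG P E M M' hE hM1 hM2
      (fun e he => (hE' e he).2.2) h1' h2' (by omega)
    have hcard : M''.card = a := by
      have e1 : M''.card = (Prod.fst '' (M'' : Set (P × P))).ncard := by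
        rw [h1''.ncard_image, Set.ncard_coe_finset]
      have e2 : M'.card = (Prod.fst '' (M' : Set (P × P))).ncard := by
        rw [h1'.ncard_image, Set.ncard_coe_finset]
      rw [e1, him, Set.ncard_insert_of_notMem hy (Set.toFinite _), ← e2]
      omega
    have hav : ∀ e ∈ M', e.1 ≠ r ∧ e.1 ≠ v := fun e he => ⟨(hE' e he).1, (hE' e he).2.1⟩
    have hmem : ∀ e ∈ M'', e.1 = y ∨ (e.1 ≠ r ∧ e.1 ≠ v) := by
      intro e he
      have h3 : e.1 ∈ Prod.fst '' (M'' : Set (P × P)) := ⟨e, by exact_mod_cast he, rfl⟩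
      rw [him] at h3
      rcases h3 with h3 | ⟨f, hf, hfe⟩
      · exact Or.inl h3
      · right
        rw [← hfe]
        exact hav f (by exact_mod_cast hf)
    by_cases hyv : y = v
    · have h4 : Mat (del E r) a := ⟨M'', hcard, fun e he => ⟨by
        rcases hmem e he with h | h
        · rw [h, hyv]
          exact hvr
        · exact h.1, hE'' e he⟩, h1'', h2''⟩
      have := (hc a).1 h4
      omega
    · have h4 : Mat (del E v) a := ⟨M'', hcard, fun e he => ⟨by
        rcases hmem e he with h | h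
        · rw [h]
          exact hyv
        · exact h.2, hE'' e he⟩, h1'', h2''⟩
      have := (hb a).1 h4
      omega

end Pool.Agent.Helper53.GS
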